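import Pool.Agent.helper44.MDG.Spec

/-!
PPK: the fixed plan for a path (project MG, MP_05a1de_lc).
-/

set_option autoImplicit false

namespace Pool.Agent.helper44.MDG

/-- First vertex of the interior part of run `i`. -/
def PPK_x (s : ℕ → ℕ) (i : ℕ) : ℕ := if 0 < i then s i + 2 else s i

/-- End of the interior part of run `i`. -/
def PPK_y (r : ℕ) (s : ℕ → ℕ) (i : ℕ) : ℕ := if i + 1 < r then s (i + 1) - 2 else s (i + 1)

/-- The largest centre in run `i`. -/
def PPK_z (r : ℕ) (s : ℕ → ℕ) (i : ℕ) : ℕ := if i + 1 < r then s (i + 1) - 4 else s (i + 1) - 1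

/-- The centres. -/
def PPK_k (r : ℕ) (s : ℕ → ℕ) (i j : ℕ) : ℕ := min (PPK_x s i + 1 + 3 * j) (PPK_z r s i)

theorem PPK_mono {n r : ℕ} {s : ℕ → ℕ} {e : Bool} {c : Fin n → Bool} (h : Runs n r s e c)
    (i : ℕ) : ∀ d : ℕ, i + d ≤ r → s i ≤ s (i + d)
  | 0, _ => le_refl _
  | d + 1, hd => by
    have h1 := PPK_mono h i d (by omega)
    have h2 := h.len (i + d) (by omega)
    have h3 : i + (d + 1) = i + d + 1 := by omega
    rw [h3]
    omega

theorem PPK_le {n r : ℕ} {s : ℕ → ℕ} {e : Bool} {c : Fin n → Bool} (h : Runs n r s e c)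
    {i j : ℕ} (hij : i ≤ j) (hj : j ≤ r) : s i ≤ s j := by
  have h1 := PPK_mono h i (j - i) (by omega)
  have h2 : i + (j - i) = j := by omega
  rwa [h2] at h1

theorem PPK_run {n r : ℕ} {s : ℕ → ℕ} {e : Bool} {c : Fin n → Bool} (h : Runs n r s e c)
    (u : ℕ) (hu : u < n) : ∃ i, i < r ∧ s i ≤ u ∧ u < s (i + 1) := by
  have hex : ∃ i, u < s (i + 1) := by
    refine ⟨r - 1, ?_⟩
    have h1 : r - 1 + 1 = r := by have := h.pos; omega
    rw [h1, h.sr]
    exact hu
  classical
  refine ⟨Nat.find hex, ?_, ?_, Nat.find_spec hex⟩
  · have h1 : Nat.find hex ≤ r - 1 := by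
      apply Nat.find_min'
      have h1 : r - 1 + 1 = r := by have := h.pos; omega
      rw [h1, h.sr]
      exact hu
    have := h.pos
    omega
  · rcases Nat.eq_zero_or_pos (Nat.find hex) with h0 | h0
    · rw [h0, h.s0]
      omega
    · have h1 := Nat.find_min hex (m := Nat.find hex - 1) (by omega)
      have h2 : Nat.find hex - 1 + 1 = Nat.find hex := by omega
      rw [h2] at h1
      omega

theorem PPK_flip (e p : Bool) (i : ℕ) (h : col e (i + 1) = p) : col e i ≠ p := by
  unfold col at *
  rcases Nat.mod_two_eq_zero_or_one i with h0 | h0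
  · have h1 : (i + 1) % 2 = 1 := by omega
    rw [h1] at h
    rw [h0]
    cases e <;> cases p <;> simp_all
  · have h1 : (i + 1) % 2 = 0 := by omega
    rw [h1] at h
    rw [h0]
    cases e <;> cases p <;> simp_all

/-- Arithmetic of one run. -/
theorem PPK_arith {n r : ℕ} {s : ℕ → ℕ} {e : Bool} {c : Fin n → Bool} (h : Runs n r s e c)
    (i j u : ℕ) (hi : i < r)
    (hu : u = PPK_k r s i j ∨ u + 1 = PPK_k r s i j ∨ PPK_k r s i j + 1 = u) (hun : u < n) :
    PPK_x s i ≤ u ∧ u < PPK_y r s i := by
  have h1 := h.len i hi
  have h2 := h.len' i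
  have h3 := h.sr
  have h4 := h.s0
  unfold PPK_k PPK_x PPK_y PPK_z at *
  rcases Nat.eq_zero_or_pos i with h0 | h0
  · subst h0
    by_cases hr : 0 + 1 < r
    · simp only [hr, if_true, lt_irrefl, if_false] at *
      omega
    · have hr1 : r = 1 := by omega
      subst hr1
      simp only [lt_irrefl, if_false, zero_add] at *
      omega
  · by_cases hr : i + 1 < r
    · have h5 := h2 h0 hr
      simp only [h0, hr, if_true] at *
      omega
    · have hr1 : r = i + 1 := by omega
      subst hr1
      simp only [h0, if_true, lt_irrefl, if_false] at *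
      omega

/-- `w` is a centre in a run of colour `p`. -/
def PPK_Q (r : ℕ) (s : ℕ → ℕ) (e p : Bool) (w : ℕ) : Prop :=
  ∃ i ∈ (Finset.range r).filter (fun i => col e i = p),
    ∃ j ∈ Finset.range ((s (i + 1) - s i - 2 * bd r i + 2) / 3), w = PPK_k r s i j

theorem PPK : PPK_stmt := by
  intro n r s e p c h a1 a2 ha1 ha2
  classical
  refine ⟨Finset.univ.filter (fun v : Fin n => PPK_Q r s e p v.val), ?_, ?_, ?_, ?_⟩
  · intro v hv
    obtain ⟨-, i, hi, j, hj, hvk⟩ := Finset.mem_filter.1 hv
    obtain ⟨hi1, hi2⟩ := Finset.mem_filter.1 hi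
    have hir := Finset.mem_range.1 hi1
    have h1 := PPK_arith h i j v.val hir (Or.inl hvk) v.2
    rw [← hi2]
    refine h.colour i hir v ?_ ?_
    · have := h1.1
      unfold PPK_x at this
      split_ifs at this <;> omega
    · have := h1.2
      unfold PPK_y at this
      split_ifs at this <;> omega
  · intro v hv u hu
    obtain ⟨-, i, hi, j, hj, hvk⟩ := Finset.mem_filter.1 hv
    obtain ⟨hi1, hi2⟩ := Finset.mem_filter.1 hi
    have hir := Finset.mem_range.1 hi1
    have hu' : u.val = v.val ∨ u.val + 1 = v.val ∨ v.val + 1 = u.val :=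
      (Finset.mem_filter.1 hu).2
    rw [hvk] at hu'
    have h1 := PPK_arith h i j u.val hir hu' u.2
    have hx : s i ≤ u.val := by
      have := h1.1
      unfold PPK_x at this
      split_ifs at this <;> omega
    have hy : u.val < s (i + 1) := by
      have := h1.2
      unfold PPK_y at this
      split_ifs at this <;> omega
    refine ⟨?_, ?_⟩
    · rw [← hi2]
      exact h.colour i hir u hx hy
    · intro i'
      have hi' : i'.val + 1 < r := by have := i'.2; omega
      have key : u.val ≠ A1 s e p i'.val ∧ u.val ≠ A2 s e p i'.val := by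
        have hl := h.len i'.val (by omega)
        have hl2 := h.len (i'.val + 1) (by omega)
        have hx2 := h1.1
        have hy2 := h1.2
        unfold PPK_x at hx2
        unfold PPK_y at hy2
        unfold A1 A2
        rcases lt_trichotomy i'.val i with hlt | heq | hgt
        · have h0 : 0 < i := by omega
          rw [if_pos h0] at hx2
          have hle := PPK_le h (i := i'.val + 1) (j := i) (by omega) (by omega)
          split_ifs <;> omega
        · rw [heq] at hi' ⊢
          rw [if_pos hi'] at hy2
          rw [if_pos hi2, if_pos hi2]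
          omega
        · have hle := PPK_le h (i := i + 1) (j := i'.val) (by omega) (by omega)
          split_ifs <;> omega
      refine ⟨fun hh => key.1 ?_, fun hh => key.2 ?_⟩
      · rw [hh, ha1]
      · rw [hh, ha2]
  · intro u hu
    obtain ⟨i, hir, hx, hy⟩ := PPK_run h u.val u.2
    have hcol : col e i = p := by rw [← h.colour i hir u hx hy, hu]
    by_cases hA : u.val < PPK_x s i
    · right
      unfold PPK_x at hA
      by_cases h0 : 0 < i
      · rw [if_pos h0] at hA
        refine ⟨⟨i - 1, by omega⟩, ?_⟩
        have hcol' : col e (i - 1) ≠ p := by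
          apply PPK_flip
          have : i - 1 + 1 = i := by omega
          rw [this, hcol]
        have e1 : i - 1 + 1 = i := by omega
        have v1 : (a1 ⟨i - 1, by omega⟩).val = s i := by
          rw [ha1, A1, if_neg hcol', e1]
        have v2 : (a2 ⟨i - 1, by omega⟩).val = s i + 1 := by
          rw [ha2, A2, if_neg hcol', e1]
        rcases Nat.lt_or_ge u.val (s i + 1) with hh | hh
        · left
          apply Fin.ext
          rw [v1]
          omega
        · right
          apply Fin.ext
          rw [v2]
          omega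
      · rw [if_neg h0] at hA
        omega
    · by_cases hB : u.val < PPK_y r s i
      · left
        have hlen := h.len i hir
        have hlen' := h.len' i
        have hn : s (i + 1) ≤ n := by
          have := PPK_le h (i := i + 1) (j := r) (by omega) (le_refl _)
          rw [h.sr] at this
          exact this
        have hkn : PPK_k r s i ((u.val - PPK_x s i) / 3) < n := by
          unfold PPK_k PPK_z
          split_ifs <;> omega
        refine ⟨⟨PPK_k r s i ((u.val - PPK_x s i) / 3), hkn⟩, ?_, ?_⟩
        · refine Finset.mem_filter.2 ⟨Finset.mem_univ _, i, ?_, (u.val - PPK_x s i) / 3, ?_, rfl⟩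
          · exact Finset.mem_filter.2 ⟨Finset.mem_range.2 hir, hcol⟩
          · refine Finset.mem_range.2 ?_
            unfold PPK_x PPK_y bd at *
            split_ifs at * <;> omega
        · refine Finset.mem_filter.2 ⟨Finset.mem_univ _, ?_⟩
          show u.val = PPK_k r s i ((u.val - PPK_x s i) / 3) ∨
            u.val + 1 = PPK_k r s i ((u.val - PPK_x s i) / 3) ∨
            PPK_k r s i ((u.val - PPK_x s i) / 3) + 1 = u.val
          unfold PPK_k PPK_z
          unfold PPK_y at hB
          split_ifs at * <;> omega
      · right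
        unfold PPK_y at hB
        by_cases h0 : i + 1 < r
        · rw [if_pos h0] at hB
          refine ⟨⟨i, by omega⟩, ?_⟩
          have v1 : (a1 ⟨i, by omega⟩).val = s (i + 1) - 1 := by
            rw [ha1, A1, if_pos hcol]
          have v2 : (a2 ⟨i, by omega⟩).val = s (i + 1) - 2 := by
            rw [ha2, A2, if_pos hcol]
          have hlen := h.len i hir
          rcases Nat.lt_or_ge u.val (s (i + 1) - 1) with hh | hh
          · right
            apply Fin.ext
            rw [v2]
            omega
          · left
            apply Fin.ext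
            rw [v1]
            omega
        · rw [if_neg h0] at hB
          omega
  · have hsub : (Finset.univ.filter (fun v : Fin n =>
        PPK_Q r s e p v.val)).image (fun v : Fin n => v.val) ⊆
        ((Finset.range r).filter (fun i => col e i = p)).biUnion (fun i =>
          (Finset.range ((s (i + 1) - s i - 2 * bd r i + 2) / 3)).image
            (fun j => PPK_k r s i j)) := by
      intro w hw
      obtain ⟨v, hv, rfl⟩ := Finset.mem_image.1 hw
      obtain ⟨-, i, hi, j, hj, hvk⟩ := Finset.mem_filter.1 hv
      exact Finset.mem_biUnion.2 ⟨i, hi, Finset.mem_image.2 ⟨j, hj, hvk.symm⟩⟩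
    rw [← Finset.card_image_of_injective _ Fin.val_injective]
    refine (Finset.card_le_card hsub).trans (Finset.card_biUnion_le.trans ?_)
    refine Finset.sum_le_sum (fun i _ => ?_)
    refine Finset.card_image_le.trans ?_
    rw [Finset.card_range]

end Pool.Agent.helper44.MDG
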